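import Pool.Agent.Y103.Hk.Defs2

/-!
# Numerical conditions, absence of relations between the conjugates of a number: definitions
-/

set_option autoImplicit false

open NumberField

namespace Pool.Agent.N599.Hk

open Pool.Agent.Y138.KC

/-- The numerical condition: `d ≤ 11` and either `n ≤ 3` and `(d, m)` is not one of the pairs
`(3, 2), (6, 2), (6, 3), (6, 4), (9, 2), (9, 4), (9, 6), (10, 4), (10, 6)`, or `m` is odd and `(d, m)`
is not one of the pairs `(6, 3), (9, 3), (10, 3), (10, 5)`, or `d` is a prime number and `n < d`. -/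
def GoodNumbers (d m n : ℕ) : Prop :=
  d ≤ 11 ∧ ((n ≤ 3 ∧ (d, m) ∉ exceptionalPairs) ∨ (Odd m ∧ (d, m) ∉ exceptionalOddPairs) ∨
    (d.Prime ∧ n < d))

variable {p : ℕ} [Fact p.Prime] {E : Type} [Field E] [NumberField E] [IsCMField E]

/-- All complex absolute values of `α` are one, and there are no relations between the slopes of the
conjugates of `α`: if `f` is an integral function on the embeddings of `E` such that
`f (complex conjugate of σ) = - f σ` and such that the sum of the numbers
`f σ * log |g (σ α)|` is zero for all automorphisms `g`, then `f = 0`. (So the conjugates of `α`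
satisfy no multiplicative relations besides the consequences of `σ α * conj (σ α) = 1`.) -/
structure NoRelations (ι : AlgebraicClosure ℚ →+* PadicAlgCl p) (α : E) : Prop where
  unitary : ∀ φ : E →+* ℂ, ‖φ α‖ = 1
  zero : ∀ f : (E →+* AlgebraicClosure ℚ) → ℤ,
    (∀ σ, f (σ.comp (IsCMField.complexConj E : E →+* E)) = - f σ) →
    (∀ g : AlgebraicClosure ℚ ≃ₐ[ℚ] AlgebraicClosure ℚ,
      ∑ σ : E →+* AlgebraicClosure ℚ, (f σ : ℝ) * Real.log ‖ι (g (σ α))‖ = 0) → ∀ σ, f σ = 0

/-- The embedding `τ` is conjugate to the embedding `σ` over the field `L`. -/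
def AreConj {E : Type} [Field E] (L : IntermediateField ℚ (AlgebraicClosure ℚ))
    (σ τ : E →+* AlgebraicClosure ℚ) : Prop :=
  ∃ h : AlgebraicClosure ℚ ≃ₐ[ℚ] AlgebraicClosure ℚ, (∀ x ∈ L, h x = x) ∧ ∀ x, h (σ x) = τ x

/-- Every embedding of `E` is conjugate over `L` to its complex conjugate. -/
def SelfConj (E : Type) [Field E] [NumberField E] [IsCMField E]
    (L : IntermediateField ℚ (AlgebraicClosure ℚ)) : Prop :=
  ∀ σ : E →+* AlgebraicClosure ℚ, AreConj L σ (σ.comp (IsCMField.complexConj E : E →+* E))

/-- Every embedding of `E` is conjugate over `L` to its complex conjugate, or it has more than `n`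
conjugates over `L`. -/
def ManyConj (E : Type) [Field E] [NumberField E] [IsCMField E]
    (L : IntermediateField ℚ (AlgebraicClosure ℚ)) (n : ℕ) : Prop :=
  ∀ σ : E →+* AlgebraicClosure ℚ,
    AreConj L σ (σ.comp (IsCMField.complexConj E : E →+* E)) ∨
      n < Nat.card {τ : E →+* AlgebraicClosure ℚ // AreConj L σ τ}

end Pool.Agent.N599.Hk
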