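import Pool.Agent.N599.Hk.Defs
import Pool.Agent.Y103.Hk.Main2

/-!
# The library theorems with the definitions of `N599.Hk.Defs`
-/

set_option autoImplicit false

open CategoryTheory AlgebraicGeometry NumberField

universe u v

namespace Pool.Agent.N599.Hk

open Pool.Agent.H914 Pool.Agent.H914.VarClass Pool.Agent.H914.VarClass.Obj
  Pool.Agent.H914.WeilCohomology Pool.Agent.H281R3.HT Pool.Agent.W552 Pool.Agent.W534
  Pool.Agent.W458.RK Pool.Agent.W458.MF Pool.Agent.TH132.A Pool.Agent.W536.RR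
  Pool.Agent.TH121.KT Pool.Agent.W517.K3 Pool.Agent.Y138.KC Pool.Agent.Y103.Hk

theorem built {k : Type u} [Field k] {𝒱 : VarClass k} {ops : CycleOps 𝒱}
    (W : WeilCohomology.{u, v} ops) [IsAlgClosed W.K] (p : ℕ) [Fact p.Prime]
    (Φ : FrobSystem W p) (ι : AlgebraicClosure ℚ →+* PadicAlgCl p)
    (X Z : 𝒱.Obj) (b e : ℕ) (E : Type) [Field E] [NumberField E] [IsCMField E] (α : E)
    (a d n : ℕ) (hα : IsK3Frobenius p a α) (he : 0 < e)
    (hd : Module.finrank ℚ E = 2 * d) (hgood : GoodNumbers d (localDegree p α) n)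
    (hX : TateIn Φ (X.prod X) (2 * b) ∨ SimpleLefschetz Φ X b e α)
    (hZ : IsBuiltFrom Φ X b e α n Z) :
    (∀ c, SemisimpleTateIn Φ Z c) ∧ InjectiveCycleMap W Z ∧
    ∀ L : IntermediateField ℚ (AlgebraicClosure ℚ), IsIndependentField E L →
      ∀ U : 𝒱.Obj, SlopesIn Φ ι L U → ∀ c,
      (TateIn Φ (Z.prod U) c ↔ ∀ i ≤ c, HasCycle W Z i → TateIn Φ U (c - i)) ∧
      (SemisimpleTateIn Φ (Z.prod U) c ↔
        ∀ i ≤ c, HasCycle W Z i → SemisimpleTateIn Φ U (c - i)) :=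
  Y103.Hk.main hα he hd hgood hX hZ

theorem many {k : Type u} [Field k] {𝒱 : VarClass k} {ops : CycleOps 𝒱}
    (W : WeilCohomology.{u, v} ops) [IsAlgClosed W.K] (p : ℕ) [Fact p.Prime]
    (Φ : FrobSystem W p) (ι : AlgebraicClosure ℚ →+* PadicAlgCl p)
    (X Z : 𝒱.Obj) (b e n : ℕ) (E : Type) [Field E] [NumberField E] [IsCMField E] (α : E)
    (hR : NoRelations ι α) (he : 0 < e)
    (hpow : ∀ s : ℕ, 0 < s → IntermediateField.adjoin ℚ {α ^ s} = ⊤)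
    (hX : TateIn Φ (X.prod X) (2 * b) ∨ SimpleLefschetz Φ X b e α)
    (hZ : IsBuiltFrom Φ X b e α n Z) (L₀ : IntermediateField ℚ (AlgebraicClosure ℚ))
    (hL₀ : IsStable L₀) (hlarge : ManyConj E L₀ n)
    (𝓛 : Set (IntermediateField ℚ (AlgebraicClosure ℚ)))
    (h𝓛 : ∀ L ∈ 𝓛, L = L₀ ∨ (IsStable L ∧ SelfConj E L)) (U : 𝒱.Obj)
    (hU : HasSlopes Φ ι 𝓛 U) :
    (HasCycle W Z 0 → (HomIsNum W (Z.prod U) ↔ HomIsNum W U)) ∧ ∀ c,
      (TateIn Φ (Z.prod U) c ↔ ∀ i ≤ c, HasCycle W Z i → TateIn Φ U (c - i)) ∧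
      (SemisimpleTateIn Φ (Z.prod U) c ↔
        ∀ i ≤ c, HasCycle W Z i → SemisimpleTateIn Φ U (c - i)) := by
  have hR' : NoRel ι α := ⟨hR.unitary, hR.zero⟩
  exact main_many hR' he hpow hX hZ hL₀ hlarge h𝓛 hU

end Pool.Agent.N599.Hk
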